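import Pool.Agent.Lib.Pd6J.Main

/-!
# Springer cells of matrices in Jordan form: singularity of the closures is as hard as 3-colouring
-/

open MvPolynomial Pd6ff58

namespace Pool.Agent.Results.MP_d6ff58_ag.JordanForm

/-- Let `m > 0` and `n = 6 m (9 m + 4) (m ^ 2 + 1)`. There are a nilpotent `n × n` matrix `X` which is in
Jordan form after a renumbering `e` of the basis (`m (9 m + 4)` Jordan blocks, all of size
`6 (m ^ 2 + 1)`), a permutation `w`, and pairwise disjoint pairs of adjacent positions
`p a, p' a = p a + 1`, six for every pair `(u, v)` of vertices in `Fin m`, such that the following holds for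
every graph `G` on the vertex set `Fin m`. Let `s G` be the product of the transpositions of `p a` and `p' a`
over the `a = (u, v, k)` with `u`, `v` adjacent in `G`, let `X_G` be the matrix of `X` in the basis reordered
by `s G`, and `w_G = s G * w`. Then `X_G` is strictly upper triangular, `w_G B` is in the Springer fibre of
`X_G`, and the closure of the cell of `w_G` in it is singular if and only if `G` is 3-colourable. -/
theorem result {m n : ℕ} (hm : 0 < m) (hn : n = 6 * m * (9 * m + 4) * (m ^ 2 + 1)) :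
    ∃ (X : Matrix (Fin n) (Fin n) ℂ) (w : Equiv.Perm (Fin n))
      (e : Fin n ≃ Fin (m * (9 * m + 4)) × Fin (6 * (m ^ 2 + 1)))
      (p p' : Fin m × Fin m × Fin 6 → Fin n)
      (s : SimpleGraph (Fin m) → Equiv.Perm (Fin n)),
      (∀ i j, X i j = if (e i).1 = (e j).1 ∧ ((e i).2 : ℕ) + 1 = (e j).2 then 1 else 0) ∧
      (∀ a, (p' a : ℕ) = p a + 1) ∧ (∀ a b, a ≠ b → p a ≠ p b) ∧ (∀ a b, p a ≠ p' b) ∧
      ∀ G : SimpleGraph (Fin m),
        (∀ a : Fin m × Fin m × Fin 6, G.Adj a.1 a.2.1 → s G (p a) = p' a ∧ s G (p' a) = p a) ∧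
        (∀ i, (∀ a : Fin m × Fin m × Fin 6, G.Adj a.1 a.2.1 → i ≠ p a ∧ i ≠ p' a) → s G i = i) ∧
        (∀ i j, X ((s G).symm i) ((s G).symm j) ≠ 0 → i < j) ∧
        pt (permGL (s G * w)) ∈ springerFiber (X.submatrix (s G).symm (s G).symm) ∧
        (FlagSingular (cellClosure (X.submatrix (s G).symm (s G).symm) (s G * w)) ↔
          G.Colorable 3) :=
  Pd6ff58.J.main hm hn

end Pool.Agent.Results.MP_d6ff58_ag.JordanForm
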