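import Pool.Agent.Lib.Pd6U.Fin

/-!
# Murphy's law for the closures of Springer cells of nilpotent matrices in Jordan form
-/

open MvPolynomial Pd6ff58

namespace Pool.Agent.Results.MP_d6ff58_ag.JordanUniversality

/-- The common zeros in `ℂ^k` of a set of polynomials with integer coefficients. -/
def zeros {k : ℕ} (𝒮 : Set (MvPolynomial (Fin k) ℤ)) : Set (Fin k → ℂ) :=
  {y | ∀ f ∈ 𝒮, aeval y f = 0}

/-- Let `Y` be the set of common zeros in `ℂ^k` of a set of polynomials with integer coefficients.
There are a strictly upper triangular nilpotent matrix `X` which is in Jordan form up to the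
numbering `e` of the basis (`N` blocks, all of size `26`), a permutation `w` with `w B` in the
Springer fibre of `X`, and `M` such that, `Z` being the closure of the cell of `w` in the Springer
fibre of `X`: for every `y ∈ Y` there is a point of this cell at which the local ring of `Z` is that
of `Y × 𝔸^M` at `(y, 0)`. In particular `Z` is singular if `Y` is. -/
theorem result {k : ℕ} (𝒮 : Set (MvPolynomial (Fin k) ℤ)) :
    ∃ (n N M : ℕ) (X : Matrix (Fin n) (Fin n) ℂ) (w : Equiv.Perm (Fin n))
      (e : Fin n ≃ Fin N × Fin 26),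
      (∀ i j, X i j = if (e i).1 = (e j).1 ∧ ((e i).2 : ℕ) + 1 = (e j).2 then 1 else 0) ∧
      (∀ i j, X i j ≠ 0 → i < j) ∧ pt (permGL w) ∈ springerFiber X ∧
      (∀ y ∈ zeros 𝒮, ∃ g : GL (Fin n) ℂ, pt g ∈ schubertCell w ∩ springerFiber X ∧
        SameLocalRing (chart g ⁻¹' cellClosure X w) 0 (timesAffine (τ := Fin M) (zeros 𝒮))
          (Sum.elim y 0)) ∧
      ((∃ y ∈ zeros 𝒮, ¬ RegularAt (zeros 𝒮) y) → FlagSingular (cellClosure X w)) :=
  U.jordan_universality 𝒮

end Pool.Agent.Results.MP_d6ff58_ag.JordanUniversality
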