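import Pool.Agent.Lib.Pd6J.Acz

/-!
# Springer cells of matrices in Jordan form: no criterion of bounded depth
-/

open MvPolynomial Pd6ff58

namespace Pool.Agent.Results.MP_d6ff58_ag.NoBoundedDepth

/-- Let `n = 6 m (9 m + 4) (m ^ 2 + 1)`. A pair `(X, w)` is admissible (`JordanPair`) if `X` is strictly upper
triangular and in Jordan form after a renumbering of the basis, with `m (9 m + 4)` blocks of size
`6 (m ^ 2 + 1)`, and `w B` is in the Springer fibre of `X`. For every depth `d` there are `c > 0` and `m₀` such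
that for `m ≥ m₀` every circuit of depth `d` whose inputs are arbitrary predicates of `(X, w)`, each depending
on at most `n ^ c` positions, and which decides for the admissible pairs whether the closure of the cell of `w`
in the Springer fibre of `X` is singular, has at least `2 ^ (n ^ c)` gates. -/
theorem result (d : ℕ) : ∃ c : ℝ, 0 < c ∧ ∃ m₀ : ℕ, ∀ m ≥ m₀, ∀ n : ℕ,
    n = 6 * m * (9 * m + 4) * (m ^ 2 + 1) → ∀ r S : ℕ, (r : ℝ) ≤ (n : ℝ) ^ c →
    ∀ f : Matrix (Fin n) (Fin n) ℂ → Equiv.Perm (Fin n) → Prop, BoundedDepth d r S f →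
      (∀ X w, JordanPair (m * (9 * m + 4)) (6 * (m ^ 2 + 1)) X w →
        (f X w ↔ FlagSingular (cellClosure X w))) →
      (2 : ℝ) ^ ((n : ℝ) ^ c) ≤ S :=
  Pd6ff58.no_circuits d

end Pool.Agent.Results.MP_d6ff58_ag.NoBoundedDepth
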