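import Pool.Agent.Lib.Pd6ff58.Final
import Pool.Agent.Lib.Pd6ff58.RD

/-!
# Every irreducible projective variety occurs in the closures of cells of Springer fibres
-/

open MvPolynomial Pd6ff58

namespace Pool.Agent.Results.MP_d6ff58_ag.Universality

/-- Let `Y` be an irreducible projective variety in `ℙ^N` cut out by forms of degree at most `D`
(the common zeros of `𝒮`), and let `n = 6 (N + 1) ^ D`. There are an upper triangular `n × n` matrix
`X` with `X ^ 3 = 0` and `w ∈ S_n`, `w B` in the Springer fibre of `X`, such that the closure `Z` of the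
cell of `w` in this Springer fibre has the same singularities as `Y`: the local rings of `Z` are
the local rings of `Y × 𝔸^M` at the points `(y, 0)`, `y ∈ Y`, and `Z` is singular iff `Y` is. -/
theorem result {N D n : ℕ} (hD : 0 < D) (hn : n = 6 * (N + 1) ^ D)
    (𝒮 : Set (MvPolynomial (Fin (N + 1)) ℂ)) (hom : ∀ f ∈ 𝒮, ∃ e ≤ D, f.IsHomogeneous e)
    (hirr : (vanishingIdeal ℂ (cone 𝒮)).IsPrime) (hne : ∃ v ∈ cone 𝒮, v ≠ 0) :
    ∃ (M : ℕ) (X : Matrix (Fin n) (Fin n) ℂ) (w : Equiv.Perm (Fin n)),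
      X ^ 3 = 0 ∧ X.BlockTriangular id ∧ pt (permGL w) ∈ springerFiber X ∧
      (∀ g : GL (Fin n) ℂ, pt g ∈ cellClosure X w → ∃ i, ∃ v ∈ patch (cone 𝒮) i,
        SameLocalRing (chart g ⁻¹' cellClosure X w) 0
          (timesAffine (τ := Fin M) (patch (cone 𝒮) i)) (Sum.elim v 0)) ∧
      (∀ i, ∀ v ∈ patch (cone 𝒮) i, ∃ g : GL (Fin n) ℂ, pt g ∈ cellClosure X w ∧
        SameLocalRing (chart g ⁻¹' cellClosure X w) 0
          (timesAffine (τ := Fin M) (patch (cone 𝒮) i)) (Sum.elim v 0)) ∧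
      (FlagSingular (cellClosure X w) ↔ ProjSingular (cone 𝒮)) := by
  subst hn
  exact universality hD 𝒮 hom hirr hne

end Pool.Agent.Results.MP_d6ff58_ag.Universality
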